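import Pool.Agent.Run7.h172.Nls.Sup

/-!
# Local Fourier uniformity of the Liouville function for frequencies near a null set (MP_a9a441_nt)

Natural averages, windows of every length.  The supremum over the frequencies is taken inside the mean over the
windows, over a neighbourhood of an arbitrary closed set of measure zero.
-/

set_option autoImplicit false

open Finset Filter Topology MeasureTheory

namespace Pool.Agent.Results.MP_a9a441_nt.NullFrequencySets

/-- The mean over `m ≤ M` of the supremum over the real numbers `α` whose class modulo one lies in `A` of the absolute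
value of the mean of `h(n) e(n α)` over `m ≤ n ≤ m + N`. -/
noncomputable def meanSup (h : ℕ → ℂ) (A : Set UnitAddCircle) (N M : ℕ) : ℝ :=
  (1 / (M : ℝ)) *
    ∑ m ∈ Finset.Icc 1 M,
      ⨆ α : {α : ℝ // ((α : ℝ) : UnitAddCircle) ∈ A},
        ‖(1 / ((N : ℂ) + 1)) *
          ∑ n ∈ Finset.Icc m (m + N),
            h n * Complex.exp (2 * Real.pi * Complex.I * ((n : ℂ) * ((α.1 : ℝ) : ℂ)))‖

/-- the Liouville function -/
noncomputable def lam (n : ℕ) : ℂ := (-1) ^ (Nat.primeFactorsList n).length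

/-- the Möbius function -/
noncomputable def mu (n : ℕ) : ℂ := ((ArithmeticFunction.moebius n : ℤ) : ℂ)

/-- for each `x` with `1 ≤ x ≤ X₀` the set `A` is covered by at most `η(x) x` arcs of half-length `1 / x` -/
def ThinUpTo (X₀ : ℝ) (η : ℝ → ℝ) (A : Set UnitAddCircle) : Prop :=
  ∀ x : ℝ, 1 ≤ x → x ≤ X₀ → ∃ F : Finset UnitAddCircle, (F.card : ℝ) ≤ η x * x ∧ ∀ z ∈ A, ∃ y ∈ F, ‖z - y‖ ≤ 1 / x

open Pool.Agent.Run7.h172.Nls in
lemma meanSup_eq (h : ℕ → ℂ) (A : Set UnitAddCircle) (N M : ℕ) :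
    meanSup h A N M = 1 / (M : ℝ) * (1 / ((N : ℝ) + 1) *
      ∑ m ∈ Icc 1 M, (⨆ α : {α : ℝ // ((α : ℝ) : UnitAddCircle) ∈ A},
        ‖∑ i ∈ range (N + 1), h (m + i) * Pool.Agent.H807R2.Dav.ee ((i : ℝ) * α.1)‖)) := by
  unfold meanSup
  congr 1
  rw [mul_sum]
  refine sum_congr rfl fun m _ => ?_
  rw [Real.mul_iSup_of_nonneg (by positivity)]
  refine iSup_congr fun α => ?_
  rw [norm_mul]
  congr 1
  · rw [norm_div, norm_one]
    congr 1
    have : ((N : ℂ) + 1) = (((N + 1 : ℕ) : ℝ) : ℂ) := by push_cast; ring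
    rw [this, Complex.norm_real, Real.norm_of_nonneg (by positivity)]
    push_cast; ring
  · have e1 : Icc m (m + N) = Ico m (m + (N + 1)) := by ext n; simp only [mem_Icc, mem_Ico]; omega
    rw [e1, sum_Ico_eq_sum_range, Nat.add_sub_cancel_left]
    have e2 : ∑ i ∈ range (N + 1), h (m + i) *
        Complex.exp (2 * Real.pi * Complex.I * (((m + i : ℕ) : ℂ) * ((α.1 : ℝ) : ℂ))) =
        Pool.Agent.H807R2.Dav.ee ((m : ℝ) * α.1) * ∑ i ∈ range (N + 1), h (m + i) *
          Pool.Agent.H807R2.Dav.ee ((i : ℝ) * α.1) := by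
      rw [mul_sum]
      refine sum_congr rfl fun i _ => ?_
      have e3 : Complex.exp (2 * Real.pi * Complex.I * (((m + i : ℕ) : ℂ) * ((α.1 : ℝ) : ℂ))) =
          Pool.Agent.H807R2.Dav.ee ((m : ℝ) * α.1 + (i : ℝ) * α.1) := by
        unfold Pool.Agent.H807R2.Dav.ee
        congr 1
        push_cast
        ring
      rw [e3, Pool.Agent.H807R2.Dav.ee_add]
      ring
    rw [e2, norm_mul, norm_ee1, one_mul]

lemma meanSup_nonneg (h : ℕ → ℂ) (A : Set UnitAddCircle) (N M : ℕ) : 0 ≤ meanSup h A N M := by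
  unfold meanSup
  refine mul_nonneg (by positivity) (sum_nonneg fun m _ => ?_)
  exact Real.iSup_nonneg fun _ => norm_nonneg _

open Pool.Agent.Run7.h172.Nls in
lemma lam_eq : lam = lamC := by
  funext n
  unfold lam lamC
  rw [ArithmeticFunction.cardFactors_apply]

open Pool.Agent.Run7.h172.Nls in
lemma uniform {h : ℕ → ℂ} (hh : h = lam ∨ h = mu) {η : ℝ → ℝ} (hη : Tendsto η atTop (𝓝 0)) (ε : ℝ) (hε : 0 < ε) :
    ∃ (X₀ : ℝ) (N₀ : ℕ), ∀ N : ℕ, N₀ ≤ N → ∀ A : Set UnitAddCircle, ThinUpTo X₀ η A →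
      ∀ M : ℕ, N + 1 ≤ M → meanSup h A N M ≤ ε := by
  have key : ∃ (X0 : ℝ) (H0 : ℕ), ∀ W : ℕ, H0 ≤ W → ∀ M : ℕ, W ≤ M + 1 → ∀ A : Set UnitAddCircle,
      Pool.Agent.Run7.h172.Nls.ThinUpTo X0 η A →
      ∑ m ∈ Icc 1 M, (⨆ α : {α : ℝ // ((α : ℝ) : UnitAddCircle) ∈ A},
        ‖∑ i ∈ range W, h (m + i) * Pool.Agent.H807R2.Dav.ee ((i : ℝ) * α.1)‖) ≤ (ε / 2) * W * (M + 1) := by
    rcases hh with rfl | rfl
    · rw [lam_eq]
      exact sup_uniform lamC_mul lamC_expo hη (ε / 2) (by positivity)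
    · exact sup_uniform muC_mul muC_expo hη (ε / 2) (by positivity)
  obtain ⟨X0, H0, h0⟩ := key
  refine ⟨X0, H0, fun N hN A hA M hM => ?_⟩
  have h1 := h0 (N + 1) (by omega) M (by omega) A hA
  rw [meanSup_eq]
  have hM0 : (1 : ℝ) ≤ M := by exact_mod_cast (by omega : 1 ≤ M)
  have hN0 : (0 : ℝ) < (N : ℝ) + 1 := by positivity
  push_cast at h1
  calc 1 / (M : ℝ) * (1 / ((N : ℝ) + 1) * ∑ m ∈ Icc 1 M, (⨆ α : {α : ℝ // ((α : ℝ) : UnitAddCircle) ∈ A},
        ‖∑ i ∈ range (N + 1), h (m + i) * Pool.Agent.H807R2.Dav.ee ((i : ℝ) * α.1)‖)) ≤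
      1 / (M : ℝ) * (1 / ((N : ℝ) + 1) * (ε / 2 * ((N : ℝ) + 1) * (M + 1))) := by
        apply mul_le_mul_of_nonneg_left _ (by positivity)
        exact mul_le_mul_of_nonneg_left h1 (by positivity)
    _ = ε / 2 * ((M + 1) / M) := by field_simp
    _ ≤ ε / 2 * 2 := by
        apply mul_le_mul_of_nonneg_left _ (by positivity)
        rw [div_le_iff₀ (by linarith)]
        linarith
    _ = ε := by ring

/-- **Local Fourier uniformity of the Liouville and of the Möbius function near null sets of frequencies.**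
Let `h` be one of the two functions and let `K` be a closed subset of `ℝ/ℤ` of measure zero.
(1) For every `ε > 0` there are `δ > 0` and `N₀` such that for all `N ≥ N₀` and all `M ≥ N + 1` the mean over `m ≤ M` of
`sup |(1/(N+1)) ∑_{m ≤ n ≤ m+N} h(n) e(n α)|`, the supremum taken over all `α` at distance less than `δ` from `K`, is at
most `ε`.
(2) The upper limit, as `M → ∞`, of this mean with the supremum over the `α` in `K` tends to zero as `N → ∞`.
(3) More generally, for every function `η` with limit zero at infinity and every `ε > 0` there are `X₀` and `N₀` such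
that the mean is at most `ε` for all `N ≥ N₀`, all `M ≥ N + 1` and all sets `A` of frequencies (which may depend on `N` and
`M`) which are covered by `η(x) x` arcs of half-length `1 / x` for each `x` with `1 ≤ x ≤ X₀`. -/
theorem result (h : ℕ → ℂ) (hh : h = lam ∨ h = mu) :
    (∀ K : Set UnitAddCircle, IsClosed K → volume K = 0 →
      (∀ ε : ℝ, 0 < ε → ∃ δ : ℝ, 0 < δ ∧ ∃ N₀ : ℕ, ∀ N : ℕ, N₀ ≤ N → ∀ M : ℕ, N + 1 ≤ M →
        meanSup h (Metric.thickening δ K) N M ≤ ε) ∧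
      Tendsto (fun N : ℕ => limsup (fun M : ℕ => meanSup h K N M) atTop) atTop (𝓝 0)) ∧
    ∀ η : ℝ → ℝ, Tendsto η atTop (𝓝 0) → ∀ ε : ℝ, 0 < ε → ∃ (X₀ : ℝ) (N₀ : ℕ), ∀ N : ℕ, N₀ ≤ N →
      ∀ A : Set UnitAddCircle, ThinUpTo X₀ η A → ∀ M : ℕ, N + 1 ≤ M → meanSup h A N M ≤ ε := by
  refine ⟨fun K hK h0 => ⟨fun ε hε => ?_, ?_⟩, fun η hη ε hε => uniform hh hη ε hε⟩
  · obtain ⟨η, hη, hthin⟩ := Pool.Agent.Run7.h172.Nls.thin_nhds hK h0
    obtain ⟨X0, N0, hN0⟩ := uniform hh hη ε hε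
    obtain ⟨δ, hδ, hδ2⟩ := hthin X0
    exact ⟨δ, hδ, N0, fun N hN M hM => hN0 N hN _ hδ2 M hM⟩
  · obtain ⟨η, hη, hthin⟩ := Pool.Agent.Run7.h172.Nls.thin_of_null hK h0
    rw [Metric.tendsto_atTop]
    intro ε hε
    obtain ⟨X0, N0, hN0⟩ := uniform hh hη (ε / 2) (by positivity)
    refine ⟨N0, fun N hN => ?_⟩
    have h1 : ∀ᶠ M : ℕ in atTop, meanSup h K N M ≤ ε / 2 := by
      filter_upwards [eventually_ge_atTop (N + 1)] with M hM
      exact hN0 N hN K (fun x hx _ => hthin x hx) M hM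
    have hb : IsBoundedUnder (· ≥ ·) atTop (fun M : ℕ => meanSup h K N M) :=
      isBoundedUnder_of ⟨0, fun M => meanSup_nonneg _ _ _ _⟩
    have hb' : IsBoundedUnder (· ≤ ·) atTop (fun M : ℕ => meanSup h K N M) := ⟨ε / 2, by
      rw [eventually_map]; exact h1⟩
    have h2 : limsup (fun M : ℕ => meanSup h K N M) atTop ≤ ε / 2 :=
      limsup_le_of_le hb.isCoboundedUnder_le h1
    have h3 : 0 ≤ limsup (fun M : ℕ => meanSup h K N M) atTop :=
      le_limsup_of_frequently_le (Frequently.of_forall fun M => meanSup_nonneg _ _ _ _) hb'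
    rw [Real.dist_eq, sub_zero, abs_of_nonneg h3]
    linarith

end Pool.Agent.Results.MP_a9a441_nt.NullFrequencySets
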